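import Pool.Agent.H.MP_fc75c6_al.C

namespace Pool.Agent.Results.MP_fc75c6_al.Unbounded

open Pool.Agent.H.MP_fc75c6_al

theorem result (c : ℕ) :
    ∃ (G : Type) (_ : Group G) (_ : Finite G),
      (∃ m : ℤ, ∀ x y : G, Subgroup.zpowers y = Subgroup.zpowers x →
        IsConj y x ∨ IsConj y (x ^ m)) ∧
      (c : Cardinal) < Module.rank ℚ (IntermediateField.adjoin ℚ
        {z : ℂ | ∃ V : FDRep ℂ G, Representation.IsIrreducible V.ρ ∧
          ∃ x : G, V.character x = z}) := by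
  obtain ⟨n, hn⟩ := big (c + 1)
  refine ⟨GG n, inferInstance, inferInstance, ⟨((1 + 2 * oddP n : ℕ) : ℤ), fun x y h => ?_⟩, ?_⟩
  · rw [zpow_natCast]
    exact usr n x y h
  · exact lt_of_lt_of_le (by exact_mod_cast Nat.lt_succ_self c) hn

end Pool.Agent.Results.MP_fc75c6_al.Unbounded
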